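import Pool.Agent.Work.MP_605a0d_an.Basis

/-!
# Weak* bases versus weak* Schauder bases

Problem MP_605a0d_an, Q1: there are a real and a complex Banach space whose duals have a weak*
basis but no weak* Schauder basis.
-/

set_option autoImplicit false

namespace Pool.Agent.Results.MP_605a0d_an.NoSchauderBasis

open Pool.Agent.Work.MP_605a0d_an

/-- **The answer to Q1 is no**, for real and for complex scalars. -/
theorem result :
    (∃ (E : Type) (_ : NormedAddCommGroup E) (_ : NormedSpace ℝ E), CompleteSpace E ∧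
      (∃ h : ℕ → WeakDual ℝ E, IsWeakStarBasis ℝ h) ∧
      ¬ ∃ h : ℕ → WeakDual ℝ E, IsWeakStarSchauderBasis ℝ h) ∧
    (∃ (E : Type) (_ : NormedAddCommGroup E) (_ : NormedSpace ℂ E), CompleteSpace E ∧
      (∃ h : ℕ → WeakDual ℂ E, IsWeakStarBasis ℂ h) ∧
      ¬ ∃ h : ℕ → WeakDual ℂ E, IsWeakStarSchauderBasis ℂ h) :=
  ⟨counterexample ℝ, counterexample ℂ⟩

end Pool.Agent.Results.MP_605a0d_an.NoSchauderBasis
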